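import Mathlib

open Set Topology

namespace Pool.Agent.H.MP_f98bae_gt

noncomputable section

/-- Orthonormal frame of the product of the Heisenberg group and a line, coordinates (x,y,z,w). -/
def X (i : Fin 3) (q : Fin 4 → ℝ) : Fin 4 → ℝ :=
  ![![1, 0, -q 1 / 2, 0], ![0, 1, q 0 / 2, 0], ![0, 0, 0, 1]] i

def Ham (q p : Fin 4 → ℝ) : ℝ := (∑ i, (p ⬝ᵥ X i q) ^ 2) / 2

/-- Hamilton's equations. -/
def Sol (g p : ℝ → Fin 4 → ℝ) : Prop :=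
  ∀ t i,
    HasDerivAt (fun s => g s i) (deriv (fun r => Ham (g t) (Function.update (p t) i r)) (p t i)) t ∧
    HasDerivAt (fun s => p s i) (-deriv (fun r => Ham (Function.update (g t) i r) (p t)) (g t i)) t

/-- `E` is the exponential map at the origin. -/
def IsExp (E : (Fin 4 → ℝ) → (Fin 4 → ℝ)) : Prop :=
  ∀ l, (∃ g p, Sol g p ∧ g 0 = 0 ∧ p 0 = l) ∧ ∀ g p, Sol g p → g 0 = 0 → p 0 = l → g 1 = E l

def Conj (E : (Fin 4 → ℝ) → (Fin 4 → ℝ)) : Set (Fin 4 → ℝ) :=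
  {l | Ham 0 l ≠ 0 ∧ DifferentiableAt ℝ E l ∧ ¬ Function.Bijective (fderiv ℝ E l)}

def Reg (E : (Fin 4 → ℝ) → (Fin 4 → ℝ)) : Set (Fin 4 → ℝ) :=
  {l | l ∈ Conj E ∧ ∃ U ∈ 𝓝 l, ∀ v : Fin 4 → ℝ, v ≠ 0 →
    ((range fun s : ℝ => s • v) ∩ (Conj E ∩ U)).Subsingleton}

end

end Pool.Agent.H.MP_f98bae_gt
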