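import Pool.Agent.H.MP_f98bae_gt.Defs

open Set Topology Real

namespace Pool.Agent.H.MP_f98bae_gt

noncomputable section

abbrev V := Fin 4 → ℝ

theorem Ham_eq (q p : V) : Ham q p =
    ((p 0 - q 1 * p 2 / 2) ^ 2 + (p 1 + q 0 * p 2 / 2) ^ 2 + p 3 ^ 2) / 2 := by
  simp [Ham, X, dotProduct, Fin.sum_univ_four, Fin.sum_univ_three]
  ring

theorem dq (A B C D E F s0 : ℝ) (f : ℝ → ℝ)
    (hf : ∀ s, f s = ((A + B * s) ^ 2 + (C + D * s) ^ 2 + (E + F * s) ^ 2) / 2) :
    deriv f s0 = (A + B * s0) * B + (C + D * s0) * D + (E + F * s0) * F := by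
  have : f = fun s => ((A + B * s) ^ 2 + (C + D * s) ^ 2 + (E + F * s) ^ 2) / 2 := funext hf
  rw [this]
  have h := (((((((hasDerivAt_id s0).const_mul B).const_add A).pow 2).add
    ((((hasDerivAt_id s0).const_mul D).const_add C).pow 2)).add
    ((((hasDerivAt_id s0).const_mul F).const_add E).pow 2)).div_const 2).deriv
  refine Eq.trans ?_ (h.trans ?_)
  · rfl
  · simp
    ring

theorem dHp (q p : V) (i : Fin 4) : deriv (fun r => Ham q (Function.update p i r)) (p i) =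
    (![p 0 - q 1 * p 2 / 2, p 1 + q 0 * p 2 / 2,
      (q 0 * (p 1 + q 0 * p 2 / 2) - q 1 * (p 0 - q 1 * p 2 / 2)) / 2, p 3] : V) i := by
  fin_cases i
  · rw [dq (-(q 1 * p 2 / 2)) 1 (p 1 + q 0 * p 2 / 2) 0 (p 3) 0 _ _ fun s => by simp [Ham_eq]; ring]
    simp; ring
  · rw [dq (p 0 - q 1 * p 2 / 2) 0 (q 0 * p 2 / 2) 1 (p 3) 0 _ _ fun s => by simp [Ham_eq]; ring]
    simp; ring
  · rw [dq (p 0) (-q 1 / 2) (p 1) (q 0 / 2) (p 3) 0 _ _ fun s => by simp [Ham_eq]; ring]
    simp; ring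
  · rw [dq (p 0 - q 1 * p 2 / 2) 0 (p 1 + q 0 * p 2 / 2) 0 0 1 _ _ fun s => by simp [Ham_eq]]
    simp

theorem dHq (q p : V) (i : Fin 4) : -deriv (fun r => Ham (Function.update q i r) p) (q i) =
    (![-((p 1 + q 0 * p 2 / 2) * p 2 / 2), (p 0 - q 1 * p 2 / 2) * p 2 / 2, 0, 0] : V) i := by
  fin_cases i
  · rw [dq (p 0 - q 1 * p 2 / 2) 0 (p 1) (p 2 / 2) (p 3) 0 _ _ fun s => by simp [Ham_eq]; ring]
    simp; ring
  · rw [dq (p 0) (-p 2 / 2) (p 1 + q 0 * p 2 / 2) 0 (p 3) 0 _ _ fun s => by simp [Ham_eq]; ring]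
    simp; ring
  · rw [dq (p 0 - q 1 * p 2 / 2) 0 (p 1 + q 0 * p 2 / 2) 0 (p 3) 0 _ _ fun s => by simp [Ham_eq]]
    simp
  · rw [dq (p 0 - q 1 * p 2 / 2) 0 (p 1 + q 0 * p 2 / 2) 0 (p 3) 0 _ _ fun s => by simp [Ham_eq]]
    simp

theorem cz {f : ℝ → ℝ} (h : ∀ t, HasDerivAt f 0 t) (t : ℝ) : f t = f 0 :=
  is_const_of_deriv_eq_zero (fun u => (h u).differentiableAt) (fun u => (h u).deriv) t 0

theorem uniq {g p g' p' : ℝ → V} (h : Sol g p) (h' : Sol g' p') (e1 : g 0 = g' 0)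
    (e2 : p 0 = p' 0) (t : ℝ) : g t = g' t := by
  unfold Sol at h h'
  simp only [dHp, dHq] at h h'
  have z : ∀ t, p t 2 = p 0 2 := cz fun t => (h t 2).2
  have z' : ∀ t, p' t 2 = p 0 2 := fun t => (cz (fun t => (h' t 2).2) t).trans (e2 ▸ rfl)
  have w : ∀ t, p t 3 = p 0 3 := cz fun t => (h t 3).2
  have w' : ∀ t, p' t 3 = p 0 3 := fun t => (cz (fun t => (h' t 3).2) t).trans (e2 ▸ rfl)
  have k := cz (f := fun t => ((p t 0 - g t 1 * p 0 2 / 2) - (p' t 0 - g' t 1 * p 0 2 / 2)) ^ 2 +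
      ((p t 1 + g t 0 * p 0 2 / 2) - (p' t 1 + g' t 0 * p 0 2 / 2)) ^ 2) fun t => by
    refine (((((h t 0).2.sub (((h t 1).1.mul_const _).div_const 2)).sub
      ((h' t 0).2.sub (((h' t 1).1.mul_const _).div_const 2))).pow 2).add
      ((((h t 1).2.add (((h t 0).1.mul_const _).div_const 2)).sub
      ((h' t 1).2.add (((h' t 0).1.mul_const _).div_const 2))).pow 2)).congr_deriv ?_
    simp [z t, z' t]
    ring
  simp only [e1, e2, sub_self] at k
  have k1 : ∀ t, p t 0 - g t 1 * p t 2 / 2 = p' t 0 - g' t 1 * p' t 2 / 2 := fun t => by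
    rw [z t, z' t, e2]
    nlinarith [k t, sq_nonneg ((p t 0 - g t 1 * p' 0 2 / 2) - (p' t 0 - g' t 1 * p' 0 2 / 2)),
      sq_nonneg ((p t 1 + g t 0 * p' 0 2 / 2) - (p' t 1 + g' t 0 * p' 0 2 / 2))]
  have k2 : ∀ t, p t 1 + g t 0 * p t 2 / 2 = p' t 1 + g' t 0 * p' t 2 / 2 := fun t => by
    rw [z t, z' t, e2]
    nlinarith [k t, sq_nonneg ((p t 0 - g t 1 * p' 0 2 / 2) - (p' t 0 - g' t 1 * p' 0 2 / 2)),
      sq_nonneg ((p t 1 + g t 0 * p' 0 2 / 2) - (p' t 1 + g' t 0 * p' 0 2 / 2))]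
  have fin : ∀ i, (∀ t, HasDerivAt (fun t => g t i - g' t i) 0 t) → ∀ t, g t i = g' t i :=
    fun i hi t => by
      have := cz hi t
      rw [e1, sub_self] at this
      linarith
  have x0 := fin 0 fun t => ((h t 0).1.sub (h' t 0).1).congr_deriv (by simp [k1 t])
  have x1 := fin 1 fun t => ((h t 1).1.sub (h' t 1).1).congr_deriv (by simp [k2 t])
  have x2 := fin 2 fun t => ((h t 2).1.sub (h' t 2).1).congr_deriv (by
    simp only [Matrix.cons_val]
    rw [k1 t, k2 t, x0 t, x1 t, sub_self])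
  have x3 := fin 3 fun t => ((h t 3).1.sub (h' t 3).1).congr_deriv (by simp [w t, w' t])
  funext i
  fin_cases i
  · exact x0 t
  · exact x1 t
  · exact x2 t
  · exact x3 t

def S (u : ℝ) : ℝ := sin u / u
def C (u : ℝ) : ℝ := (1 - cos u) / u
def Z (u : ℝ) : ℝ := (u - sin u) / (2 * u ^ 2)
def S' (u : ℝ) : ℝ := (u * cos u - sin u) / u ^ 2
def C' (u : ℝ) : ℝ := (u * sin u - (1 - cos u)) / u ^ 2
def Z' (u : ℝ) : ℝ := ((1 - cos u) * u - 2 * (u - sin u)) / (2 * u ^ 3)

def E1 (l : V) : V :=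
  ![l 0 * S (l 2) - l 1 * C (l 2), l 0 * C (l 2) + l 1 * S (l 2), (l 0 * l 0 + l 1 * l 1) * Z (l 2), l 3]

def E (l : V) : V := if l 2 = 0 then ![l 0, l 1, 0, l 3] else E1 l

theorem ex (l : V) : ∃ g p, Sol g p ∧ g 0 = 0 ∧ p 0 = l ∧ g 1 = E l := by
  unfold Sol
  simp only [dHp, dHq]
  by_cases h : l 2 = 0
  · refine ⟨fun t => ![l 0 * t, l 1 * t, 0, l 3 * t], fun _ => l, fun t i => ⟨?_, ?_⟩, ?_, rfl, ?_⟩
    · fin_cases i
      · exact ((hasDerivAt_id t).const_mul (l 0)).congr_deriv (by simp [h])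
      · exact ((hasDerivAt_id t).const_mul (l 1)).congr_deriv (by simp [h])
      · exact (hasDerivAt_const t (0:ℝ)).congr_deriv (by simp [h]; ring)
      · exact ((hasDerivAt_id t).const_mul (l 3)).congr_deriv (by simp)
    · exact (hasDerivAt_const t (l i)).congr_deriv (by fin_cases i <;> simp [h])
    · funext i
      fin_cases i <;> simp
    · simp [E, h]
  · refine ⟨fun t => ![(l 0 * sin (l 2 * t) - l 1 * (1 - cos (l 2 * t))) / l 2,
      (l 0 * (1 - cos (l 2 * t)) + l 1 * sin (l 2 * t)) / l 2,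
      (l 0 * l 0 + l 1 * l 1) * ((l 2 * t - sin (l 2 * t)) / (2 * l 2 ^ 2)), l 3 * t],
      fun t => ![(l 0 * (1 + cos (l 2 * t)) - l 1 * sin (l 2 * t)) / 2,
        (l 0 * sin (l 2 * t) + l 1 * (1 + cos (l 2 * t))) / 2, l 2, l 3],
      fun t i => ?_, ?_, ?_, ?_⟩
    · have h0 := (hasDerivAt_id t).const_mul (l 2)
      have hs := h0.sin
      have hc := h0.cos
      have sc := sin_sq_add_cos_sq (l 2 * t)
      constructor
      · fin_cases i
        · refine (((hs.const_mul (l 0)).sub ((hc.const_sub 1).const_mul (l 1))).div_const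
            (l 2)).congr_deriv ?_
          simp
          field_simp
          ring
        · refine ((((hc.const_sub 1).const_mul (l 0)).add (hs.const_mul (l 1))).div_const
            (l 2)).congr_deriv ?_
          simp
          field_simp
          ring
        · refine (((h0.sub hs).div_const (2 * l 2 ^ 2)).const_mul
            (l 0 * l 0 + l 1 * l 1)).congr_deriv ?_
          simp
          field_simp
          linear_combination (-2 * (l 0 ^ 2 + l 1 ^ 2)) * sc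
        · exact ((hasDerivAt_id t).const_mul (l 3)).congr_deriv (by simp)
      · fin_cases i
        · refine ((((hc.const_add 1).const_mul (l 0)).sub (hs.const_mul (l 1))).div_const
            2).congr_deriv ?_
          simp
          field_simp
          ring
        · refine (((hs.const_mul (l 0)).add ((hc.const_add 1).const_mul (l 1))).div_const
            2).congr_deriv ?_
          simp
          field_simp
          ring
        · exact hasDerivAt_const t (l 2)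
        · exact hasDerivAt_const t (l 3)
    · funext i
      fin_cases i <;> simp
    · funext i
      fin_cases i <;> simp <;> ring
    · funext i
      fin_cases i <;> simp [E, h, E1, S, C, Z] <;> ring

theorem isExp : IsExp E := fun l => by
  obtain ⟨g, p, h, e1, e2, e3⟩ := ex l
  exact ⟨⟨g, p, h, e1, e2⟩, fun g' p' h' f1 f2 =>
    (uniq h' h (f1.trans e1.symm) (f2.trans e2.symm) 1).trans e3⟩

theorem S_d {u : ℝ} (h : u ≠ 0) : HasDerivAt S (S' u) u :=
  ((hasDerivAt_sin u).div (hasDerivAt_id u) h).congr_deriv (by simp [S']; ring)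

theorem C_d {u : ℝ} (h : u ≠ 0) : HasDerivAt C (C' u) u :=
  (((hasDerivAt_cos u).const_sub 1).div (hasDerivAt_id u) h).congr_deriv (by simp [C']; ring)

theorem Z_d {u : ℝ} (h : u ≠ 0) : HasDerivAt Z (Z' u) u :=
  (((hasDerivAt_id u).sub (hasDerivAt_sin u)).div (((hasDerivAt_id u).pow 2).const_mul 2)
    (by simpa using h)).congr_deriv (by simp [Z']; field_simp)

theorem E_d {l : V} (h : l 2 ≠ 0) : DifferentiableAt ℝ E l ∧ ∀ v, fderiv ℝ E l v =
    ![v 0 * S (l 2) - v 1 * C (l 2) + (l 0 * S' (l 2) - l 1 * C' (l 2)) * v 2,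
      v 0 * C (l 2) + v 1 * S (l 2) + (l 0 * C' (l 2) + l 1 * S' (l 2)) * v 2,
      2 * (l 0 * v 0 + l 1 * v 1) * Z (l 2) + (l 0 * l 0 + l 1 * l 1) * Z' (l 2) * v 2, v 3] := by
  let pr : Fin 4 → V →L[ℝ] ℝ := fun j => ContinuousLinearMap.proj (R := ℝ) (φ := fun _ : Fin 4 => ℝ) j
  have hp : ∀ j, HasFDerivAt (fun q : V => q j) (pr j) l := fun j => (pr j).hasFDerivAt
  have hS := HasDerivAt.comp_hasFDerivAt (f := fun q : V => q 2) l (S_d h) (hp 2)
  have hC := HasDerivAt.comp_hasFDerivAt (f := fun q : V => q 2) l (C_d h) (hp 2)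
  have hZ := HasDerivAt.comp_hasFDerivAt (f := fun q : V => q 2) l (Z_d h) (hp 2)
  have h0 := ((hp 0).mul hS).sub ((hp 1).mul hC)
  have h1 := ((hp 0).mul hC).add ((hp 1).mul hS)
  have h2 := (((hp 0).mul (hp 0)).add ((hp 1).mul (hp 1))).mul hZ
  have e : E =ᶠ[𝓝 l] E1 := by
    filter_upwards [(continuous_apply (2 : Fin 4)).continuousAt.eventually_ne h] with m hm
    exact if_neg hm
  have hE1 : DifferentiableAt ℝ E1 l := by
    rw [differentiableAt_pi]
    intro i
    fin_cases i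
    · exact h0.differentiableAt
    · exact h1.differentiableAt
    · exact h2.differentiableAt
    · exact (hp 3).differentiableAt
  refine ⟨hE1.congr_of_eventuallyEq e, fun v => ?_⟩
  rw [e.fderiv_eq]
  have hh := hasFDerivAt_pi'.1 hE1.hasFDerivAt
  funext i
  fin_cases i
  · have := congrArg (fun T => T v) ((hh 0).unique h0)
    refine Eq.trans this ?_
    simp [pr]
    ring
  · have := congrArg (fun T => T v) ((hh 1).unique h1)
    refine Eq.trans this ?_
    simp [pr]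
    ring
  · have := congrArg (fun T => T v) ((hh 2).unique h2)
    refine Eq.trans this ?_
    simp [pr]
    ring
  · exact congrArg (fun T => T v) ((hh 3).unique (hp 3))

theorem conj_of {l : V} (h0 : l 0 = 0) (h1 : l 1 = 0) (h2 : l 2 ≠ 0) (h3 : l 3 ≠ 0) :
    l ∈ Conj E := by
  refine ⟨by simpa [Ham_eq, h0, h1] using h3, (E_d h2).1, fun hb => ?_⟩
  have : fderiv ℝ E l ![0, 0, 1, 0] = fderiv ℝ E l 0 := by
    rw [map_zero, (E_d h2).2]
    funext i
    fin_cases i <;> simp [h0, h1]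
  have := congrFun (hb.1 this) 2
  simp at this

def J (u : ℝ) : ℝ := (S u ^ 2 + C u ^ 2) * Z' u - 2 * Z u * (S u * S' u + C u * C' u)

theorem of_conj {l : V} (h : l ∈ Conj E) (h2 : l 2 ≠ 0) (hJ : J (l 2) ≠ 0)
    (hC : C (l 2) ≠ 0) : l 0 = 0 ∧ l 1 = 0 := by
  by_contra hn
  have hr : l 0 * l 0 + l 1 * l 1 ≠ 0 := fun h => hn (mul_self_add_mul_self_eq_zero.1 h)
  have hinj : Function.Injective (fderiv ℝ E l) := by
    rw [injective_iff_map_eq_zero]
    intro v hv
    rw [(E_d h2).2] at hv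
    have a0 := congrFun hv 0
    have a1 := congrFun hv 1
    have a2 := congrFun hv 2
    have a3 := congrFun hv 3
    simp only [Matrix.cons_val, Pi.zero_apply] at a0 a1 a2 a3
    have b : (l 0 * l 0 + l 1 * l 1) * J (l 2) * v 2 = 0 := by
      unfold J
      linear_combination (S (l 2) ^ 2 + C (l 2) ^ 2) * a2 -
        2 * Z (l 2) * ((l 0 * S (l 2) - l 1 * C (l 2)) * a0 + (l 0 * C (l 2) + l 1 * S (l 2)) * a1)
    have b2 : v 2 = 0 := by simpa [hr, hJ] using b
    have hsc : S (l 2) ^ 2 + C (l 2) ^ 2 ≠ 0 := by positivity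
    rw [b2] at a0 a1
    have b0 : (S (l 2) ^ 2 + C (l 2) ^ 2) * v 0 = 0 := by
      linear_combination S (l 2) * a0 + C (l 2) * a1
    have b1 : (S (l 2) ^ 2 + C (l 2) ^ 2) * v 1 = 0 := by
      linear_combination S (l 2) * a1 - C (l 2) * a0
    funext i
    fin_cases i
    · simpa [hsc] using b0
    · simpa [hsc] using b1
    · exact b2
    · exact a3
  exact h.2.2 ⟨hinj, LinearMap.injective_iff_surjective.1
    (show Function.Injective (fderiv ℝ E l).toLinearMap from hinj)⟩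

theorem main : ¬ Conj E ⊆ closure (Reg E) := by
  intro h
  have hpi := pi_pos
  have h0 : (![0, 0, π, 1] : V) ∈ Conj E := conj_of rfl rfl pi_ne_zero one_ne_zero
  have cJ : ContinuousAt J π := by
    unfold J S C Z S' C' Z'
    fun_prop (disch := positivity)
  have cC : ContinuousAt C π := (C_d pi_ne_zero).continuousAt
  have jpi : J π ≠ 0 := by
    have : J π = 4 / π ^ 4 := by
      simp [J, S, C, Z, S', C', Z']
      field_simp
      ring
    rw [this]
    positivity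
  have cpi : C π ≠ 0 := by
    simp [C]
  have c2 : ContinuousAt (fun l : V => l 2) ![0, 0, π, 1] := (continuous_apply 2).continuousAt
  have c3 : ContinuousAt (fun l : V => l 3) ![0, 0, π, 1] := (continuous_apply 3).continuousAt
  have ev : ∀ᶠ l : V in 𝓝 ![0, 0, π, 1], l 2 ≠ 0 ∧ l 3 ≠ 0 ∧ J (l 2) ≠ 0 ∧ C (l 2) ≠ 0 :=
    (c2.eventually_ne pi_ne_zero).and ((c3.eventually_ne one_ne_zero).and
      ((c2.tendsto.eventually (cJ.eventually_ne jpi)).and
      (c2.tendsto.eventually (cC.eventually_ne cpi))))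
  obtain ⟨l, ⟨g2, g3, gJ, gC⟩, hc, U, hU, hs⟩ := mem_closure_iff_nhds.1 (h h0) _ ev
  obtain ⟨g0, g1⟩ := of_conj hc g2 gJ gC
  have hl : l ≠ 0 := fun h => g3 (by simp [h])
  have t1 : Filter.Tendsto (fun s : ℝ => s • l) (𝓝 1) (𝓝 l) := by
    have : Continuous fun s : ℝ => s • l := by fun_prop
    simpa using this.tendsto 1
  have e1 : ∀ᶠ s : ℝ in 𝓝[≠] 1, s • l ∈ U ∧ s ≠ 0 ∧ s ≠ 1 :=
    ((t1.eventually hU).filter_mono nhdsWithin_le_nhds).and
      (((eventually_ne_nhds one_ne_zero).filter_mono nhdsWithin_le_nhds).and self_mem_nhdsWithin)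
  obtain ⟨s, s1, s2, s3⟩ := e1.exists
  have := hs l hl ⟨⟨s, rfl⟩, conj_of (by simp [g0]) (by simp [g1]) (by simp [g2, s2])
    (by simp [g3, s2]), s1⟩ ⟨⟨1, one_smul _ _⟩, hc, mem_of_mem_nhds hU⟩
  have h3 := congrFun this 3
  simp only [Pi.smul_apply, smul_eq_mul] at h3
  exact s3 (mul_right_cancel₀ g3 (by rw [h3, one_mul]))

end

end Pool.Agent.H.MP_f98bae_gt
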